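import Mathlib
import Pool.Agent.Helper40.Nil.Stmts

set_option autoImplicit false

namespace Pool.Agent.Helper40.Nil

universe u

theorem fgz_poly {V : Type u} [Group V] (F : ℕ → Subgroup V) (w : ℤ → V)
    (h : ∀ l, PolyN F l 0 w) : ∀ k l, PolyN F l k ((dd (1 : ℤ))^[k] w) := by
  intro k
  induction k with
  | zero => exact h
  | succ k ih =>
    intro l
    rw [Function.iterate_succ_apply']
    exact (ih (l + 1)).2 1

theorem fgz_step {V : Type u} [Group V] (w : ℤ → V) (k : ℕ) (n : ℤ) :
    (dd (1 : ℤ))^[k] w (n + 1) = (dd (1 : ℤ))^[k + 1] w n * (dd (1 : ℤ))^[k] w n := by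
  rw [Function.iterate_succ_apply' (dd (1 : ℤ)) k w]
  unfold dd
  group

theorem st_FGZ : ST_FGZ.{u} := by
  classical
  intro V _ w hw
  obtain ⟨F, hF⟩ := hw
  obtain ⟨s, hs⟩ := F.len
  have h1 := fgz_poly F.F w hF
  have hws : ∀ n, (dd (1 : ℤ))^[s] w n = 1 := by
    intro n
    have h2 : (dd (1 : ℤ))^[s] w n ∈ F.F s := h1 s 0 n
    rw [hs] at h2
    exact Subgroup.mem_bot.1 h2
  set T : Finset V := (Finset.range s).image (fun k => (dd (1 : ℤ))^[k] w 0) with hT
  have hP : ∀ j, j ≤ s → ∀ n, (dd (1 : ℤ))^[s - j] w n ∈ Subgroup.closure (T : Set V) := by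
    intro j
    induction j with
    | zero =>
      intro _ n
      rw [Nat.sub_zero, hws]
      exact Subgroup.one_mem _
    | succ j ih =>
      intro hj
      have ih' := ih (by omega)
      have e : s - j = (s - (j + 1)) + 1 := by omega
      rw [e] at ih'
      set k := s - (j + 1) with hk
      have h0 : (dd (1 : ℤ))^[k] w 0 ∈ Subgroup.closure (T : Set V) := by
        apply Subgroup.subset_closure
        rw [hT, Finset.coe_image]
        exact ⟨k, by simp only [Finset.coe_range, Set.mem_Iio]; omega, rfl⟩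
      intro n
      induction n using Int.induction_on with
      | zero => exact h0
      | succ i hi =>
        rw [fgz_step]
        exact Subgroup.mul_mem _ (ih' _) hi
      | pred i hi =>
        have h3 := fgz_step w k (-(i : ℤ) - 1)
        rw [sub_add_cancel] at h3
        have h4 : (dd (1 : ℤ))^[k] w (-(i : ℤ) - 1) =
            ((dd (1 : ℤ))^[k + 1] w (-(i : ℤ) - 1))⁻¹ * (dd (1 : ℤ))^[k] w (-(i : ℤ)) := by
          rw [h3]; group
        rw [h4]
        exact Subgroup.mul_mem _ (Subgroup.inv_mem _ (ih' _)) hi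
  have hC : ∀ k n, (dd (1 : ℤ))^[k] w n ∈ Subgroup.closure (Set.range w) := by
    intro k
    induction k with
    | zero =>
      intro n
      exact Subgroup.subset_closure ⟨n, rfl⟩
    | succ k ih =>
      intro n
      rw [Function.iterate_succ_apply']
      exact Subgroup.mul_mem _ (ih _) (Subgroup.inv_mem _ (ih _))
  refine ⟨T, le_antisymm ?_ ?_⟩
  · rw [Subgroup.closure_le]
    intro x hx
    rw [hT, Finset.coe_image] at hx
    obtain ⟨k, _, rfl⟩ := hx
    exact hC k 0
  · rw [Subgroup.closure_le]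
    rintro x ⟨n, rfl⟩
    have := hP s le_rfl n
    rw [Nat.sub_self] at this
    exact this

end Pool.Agent.Helper40.Nil
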