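import Mathlib
import Pool.Agent.Helper40.Nil.Stmts

set_option autoImplicit false

namespace Pool.Agent.Helper40.Nil

open Filter Topology
open scoped ComplexConjugate InnerProductSpace

universe u

/-- Cauchy-Schwarz for averages -/
theorem wns_cs {D : Type} [AddCommGroup D] (S : Finset D) (f : D → ℂ) :
    ‖avg S f‖ ^ 2 ≤ ‖avg S (fun x => ((‖f x‖ ^ 2 : ℝ) : ℂ))‖ := by
  unfold avg
  rw [norm_smul, norm_smul, norm_inv, Complex.norm_natCast]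
  have h1 : ‖∑ x ∈ S, ((‖f x‖ ^ 2 : ℝ) : ℂ)‖ = ∑ x ∈ S, ‖f x‖ ^ 2 := by
    rw [← Complex.ofReal_sum, Complex.norm_real, Real.norm_eq_abs,
      abs_of_nonneg (Finset.sum_nonneg fun x _ => by positivity)]
  rw [h1]
  have h2 : ‖∑ x ∈ S, f x‖ ≤ ∑ x ∈ S, ‖f x‖ := norm_sum_le _ _
  have h3 : (∑ x ∈ S, ‖f x‖) ^ 2 ≤ (S.card : ℝ) * ∑ x ∈ S, ‖f x‖ ^ 2 := by
    exact sq_sum_le_card_mul_sum_sq
  have h4 : ‖∑ x ∈ S, f x‖ ^ 2 ≤ (S.card : ℝ) * ∑ x ∈ S, ‖f x‖ ^ 2 :=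
    (pow_le_pow_left₀ (norm_nonneg _) h2 2).trans h3
  rw [mul_pow]
  rcases S.eq_empty_or_nonempty with rfl | hS
  · simp
  · have hc : (0 : ℝ) < S.card := by exact_mod_cast hS.card_pos
    calc ((S.card : ℝ)⁻¹) ^ 2 * ‖∑ x ∈ S, f x‖ ^ 2
        ≤ ((S.card : ℝ)⁻¹) ^ 2 * ((S.card : ℝ) * ∑ x ∈ S, ‖f x‖ ^ 2) :=
          mul_le_mul_of_nonneg_left h4 (by positivity)
      _ = (S.card : ℝ)⁻¹ * ∑ x ∈ S, ‖f x‖ ^ 2 := by
          field_simp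

theorem st_WNS (h1 : ST_GNS.{u}) (h2 : ST_FDL.{u}) (h3 : ST_WNI.{u}) : ST_WNS.{u} := by
  intro c hE V _ _ hcl hfg D _ hD Φ hΦ w hw hw0 hgen φ hφ
  obtain ⟨E, i1, i2, i3, π, ζ, hG⟩ := h1 V φ (extremePoints_subset hφ)
  by_cases hfin : FiniteDimensional ℂ E
  · exact h2 V inferInstance φ hφ E π ζ hG hfin D hD Φ hΦ w hw hw0 hgen
  · left
    have h4 := h3 c hE V hcl hfg D hD Φ hΦ w hw hw0 hgen φ hφ E π ζ hG hfin
    rw [tendsto_zero_iff_norm_tendsto_zero] at h4 ⊢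
    have h5 : Tendsto (fun N => ‖avg (Φ N) (fun x => φ (w x))‖ ^ 2) atTop (𝓝 0) := by
      refine squeeze_zero (fun N => by positivity) (fun N => wns_cs (Φ N) _) h4
    have h6 := h5.sqrt
    rw [Real.sqrt_zero] at h6
    refine h6.congr fun N => ?_
    exact Real.sqrt_sq (norm_nonneg _)

end Pool.Agent.Helper40.Nil
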